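import Mathlib
import Pool.Agent.N131.SV.Low2

/-!
# The second main theorem with truncation one for entire curves with few Wronskian zeros or with
# highly ramified zeros

Let `X` be a complex projective variety of dimension `w > 0`, let `D` be a proper closed subset of
`X`, and let `ω_0, …, ω_t` be `N`-fold pluricanonical forms with at most logarithmic poles along `D`
(sections of `N (K_X + D)` if `X` is smooth and `D` is a divisor with normal crossings), not all
zero. Let `h` be the composition of an entire curve `f` in `X` with the rational map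
`(ω_0 : … : ω_t)`. Let `R = (R_0 : … : R_ν)` be a rational map of `X` to a projective space which is
generically finite onto its image. For every `ε > 0` we prove

`T_h(r) ≤ N N₁(f ∈ D, r) + ε T_f(r) + C (min (N₁(W = 0, r), N_{<μ}(R_0(f) ⋯ R_ν(f), r)) + log r)`

for all `r ≥ 1` outside a set of finite measure and for **all** entire curves `f` in `X` which are
not contained in a proper closed subset `A = 0`; here `A`, `C` and `μ` do not depend on `f`, every
point of `f ∈ D` is counted once, `W` is the Wronskian determinant of `R(f)`, and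
`N_{<μ}(R_0(f) ⋯ R_ν(f), r)` is the counting function of the zeros of the function
`R_0(f) ⋯ R_ν(f)` of multiplicity less than `μ`, each counted once. Up to the last term this is
the second main theorem conjectured by Lang and Vojta, in all dimensions, with the conjectured
coefficient and with the truncation to the level one; the last term is `C log r` if `W` has no zeros,
or if `R(f)` does not meet the coordinate hyperplanes or meets them only with multiplicities `≥ μ`,
e.g. if `f` is a curve in the complement of `D` and there is a generically finite map of this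
complement to a torus.

More generally, the curve `f = P(F)` may be the image of an entire curve `F` in a projective variety
`Z` under a dominant rational map `P` from `Z` to `X`, and `R` may be a rational map of `Z` to a
projective space which is generically finite onto its image; the error term is then `ε T_F(r)`.

If the forms exist with `t = w` and with algebraically independent ratios, i.e. if the pair `(X, D)`
is of logarithmic general type, we obtain
`T_f(r) ≤ ε T_F(r) + C (N₁(f ∈ D, r) + min (N₁(W = 0, r), N_{<μ}(R_0(F) ⋯ R_ν(F), r)) + log r)`.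
-/

set_option autoImplicit false

namespace Pool.Agent.Results.MP_64ff02_ag.MasterInequality

open MeasureTheory MvPolynomial FF
open Pool.Agent.W602.GT (IsForm coords Divisorial IsPluri RegAt LogAt LogGeneralType)

/-- The characteristic function of the curve with the homogeneous coordinates `f`: the mean of the
logarithm of the maximum norm over the circle of the radius `r`. -/
noncomputable def T {M : ℕ} (f : Fin (M + 1) → ℂ → ℂ) (r : ℝ) : ℝ :=
  Real.circleAverage (fun z => Real.log ‖fun j => f j z‖) 0 r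

/-- The counting function of the set `B`; every point is counted once. -/
noncomputable def N₁ (B : Set ℂ) (r : ℝ) : ℝ :=
  ∑ᶠ z ∈ {z : ℂ | z ∈ B ∧ ‖z‖ ≤ r}, if z = 0 then Real.log r else Real.log (r / ‖z‖)

/-- The Wronskian determinant. -/
noncomputable def W {n : ℕ} (g : Fin n → ℂ → ℂ) (z : ℂ) : ℂ :=
  Matrix.det (Matrix.of fun i j : Fin n => iteratedDeriv i (g j) z)

/-- The zeros of the function `R_0(F) ⋯ R_ν(F)` of multiplicity less than `μ`. -/
def LowZeros {M ν : ℕ} (R : Fin (ν + 1) → MvPolynomial (Fin (M + 1)) ℂ)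
    (F : Fin (M + 1) → ℂ → ℂ) (μ : ℕ) : Set ℂ :=
  {z | eval (fun j => F j z) (∏ i, R i) = 0 ∧
    analyticOrderAt (fun z => eval (fun j => F j z) (∏ i, R i)) z < μ}

section var

variable {M : ℕ} {K : Type} [Field K] [Algebra ℂ K]

/-- `K` is the function field, `w` the dimension and `y` the generic point, in homogeneous
coordinates, of a projective variety in the projective space of dimension `M`. A form `G` vanishes
on the variety if and only if `G(y) = 0`. -/
structure Variety (K : Type) [Field K] [Algebra ℂ K] (w : ℕ) (y : Fin (M + 1) → K) : Prop where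
  ne : ∃ i, y i ≠ 0
  gen : coords ℂ y = ⊤
  dim : Algebra.trdeg ℂ K = w

/-- `f` is an entire curve in the variety with the generic point `y`, in homogeneous coordinates
without common zeros. -/
structure EntireCurve (y : Fin (M + 1) → K) (f : Fin (M + 1) → ℂ → ℂ) : Prop where
  hol : ∀ j, Differentiable ℂ (f j)
  ne : ∀ z, ∃ j, f j z ≠ 0
  mem : ∀ G : MvPolynomial (Fin (M + 1)) ℂ, IsForm G → aeval y G = 0 →
    ∀ z, eval (fun j => f j z) G = 0

/-- `h` is the composition of `f` with the rational map given by the forms `B`, in homogeneous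
coordinates without common zeros. -/
structure Composition {t : ℕ} (B : Fin (t + 1) → MvPolynomial (Fin (M + 1)) ℂ)
    (f : Fin (M + 1) → ℂ → ℂ) (h : Fin (t + 1) → ℂ → ℂ) : Prop where
  hol : ∀ j, Differentiable ℂ (h j)
  ne : ∀ z, ∃ j, h j z ≠ 0
  rel : ∀ i j z, h i z * eval (fun l => f l z) (B j) = h j z * eval (fun l => f l z) (B i)

/-- `g` is a basis of the linear span of the entire functions `R_i(f)`. -/
structure Basis {ν n : ℕ} (R : Fin (ν + 1) → MvPolynomial (Fin (M + 1)) ℂ)
    (f : Fin (M + 1) → ℂ → ℂ) (g : Fin n → ℂ → ℂ) : Prop where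
  ind : LinearIndependent ℂ g
  span : Submodule.span ℂ (Set.range g) =
    Submodule.span ℂ (Set.range fun i z => eval (fun j => f j z) (R i))

/-- The forms `R` of the degree `e`, none of which vanishes on the variety with the generic point `y`,
define a rational map of this variety which is generically finite onto its image. -/
structure GenFinite {ν : ℕ} (y : Fin (M + 1) → K) (e : ℕ)
    (R : Fin (ν + 1) → MvPolynomial (Fin (M + 1)) ℂ) : Prop where
  hom : ∀ i, (R i).IsHomogeneous e
  ne : ∀ i, aeval y (R i) ≠ 0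
  alg : Algebra.IsAlgebraic (IntermediateField.adjoin ℂ
    {z | ∃ i j, z = aeval y (R i) / aeval y (R j)}) K

/-- The centre of the place `P` lies in the set of the common zeros of the forms `Q_l`, of the
degrees `q_l`, on the variety with the generic point `y`. -/
def CentreIn {s : ℕ} (Q : Fin (s + 1) → MvPolynomial (Fin (M + 1)) ℂ) (q : Fin (s + 1) → ℕ)
    (y : Fin (M + 1) → K) (P : Place ℂ K) : Prop :=
  ∃ j, y j ≠ 0 ∧ (∀ i, P.Reg (y i / y j)) ∧
    ∀ l, aeval y (Q l) / y j ^ q l = 0 ∨ 1 ≤ P.ord (aeval y (Q l) / y j ^ q l)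

/-- `ω_0, …, ω_t` are `N`-fold pluricanonical forms, not all zero, on the varieties with the function
field `K` of dimension `w`, with at most logarithmic poles along the set `D` of the common zeros of
the forms `Q_l`, and regular elsewhere. -/
structure LogForms {s t : ℕ} (Q : Fin (s + 1) → MvPolynomial (Fin (M + 1)) ℂ)
    (q : Fin (s + 1) → ℕ) (y : Fin (M + 1) → K) {w : ℕ} (N : ℕ)
    (ω : Fin (t + 1) → (Fin w → Derivation ℂ K K) → K) : Prop where
  pluri : ∀ i, IsPluri N (ω i)
  log : ∀ P : Place ℂ K, Divisorial w P → ∀ i, LogAt P (ω i)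
  reg : ∀ P : Place ℂ K, Divisorial w P → ¬ CentreIn Q q y P → ∀ i, RegAt P (ω i)
  ne : ∃ i D, ω i D ≠ 0

end var

/-- The forms `P` of the degree `p` define a dominant rational map from the variety with the generic
point `y'` to the variety with the generic point `y`; `φ` is the inclusion of the function fields. -/
structure Dominant {M M' : ℕ} {K K' : Type} [Field K] [Algebra ℂ K] [Field K'] [Algebra ℂ K']
    (y' : Fin (M' + 1) → K') (y : Fin (M + 1) → K) (φ : K →ₐ[ℂ] K') (p : ℕ)
    (P : Fin (M + 1) → MvPolynomial (Fin (M' + 1)) ℂ) : Prop where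
  hom : ∀ i, (P i).IsHomogeneous p
  ne : ∃ i, aeval y' (P i) ≠ 0
  rel : ∀ i j, φ (y i) * aeval y' (P j) = φ (y j) * aeval y' (P i)

theorem N₁_eq {B : Set ℂ} {r : ℝ} (hr : 1 ≤ r) (hfin : {z : ℂ | z ∈ B ∧ ‖z‖ ≤ r}.Finite) :
    N₁ B r = N131.SV.Nc B r := by
  classical
  have hF : ∀ z, z ∈ hfin.toFinset ↔ z ∈ B ∧ ‖z‖ ≤ r := fun z => by
    rw [Set.Finite.mem_toFinset]
    rfl
  unfold N₁ N131.SV.Nc
  rw [finsum_mem_eq_finite_toFinset_sum _ hfin, finsum_mem_eq_finite_toFinset_sum _ hfin]
  have h1 : ∀ z ∈ hfin.toFinset, (if z = 0 then Real.log r else Real.log (r / ‖z‖)) =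
      Real.log (r / ‖z‖) + if z = 0 then Real.log r else 0 := by
    intro z _
    by_cases h : z = 0
    · simp [h]
    · simp [h]
  rw [Finset.sum_congr rfl h1, Finset.sum_add_distrib, Finset.sum_ite_eq']
  congr 1
  by_cases h0 : (0 : ℂ) ∈ B
  · rw [if_pos ((hF 0).2 ⟨h0, by rw [norm_zero]; linarith⟩), Set.indicator_of_mem h0]
    simp
  · rw [if_neg fun h2 => h0 ((hF 0).1 h2).1, Set.indicator_of_notMem h0]
    simp

section proof

variable {M M' : ℕ} {K K' : Type} [Field K] [Algebra ℂ K] [Field K'] [Algebra ℂ K']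

theorem EntireCurve.ec {y : Fin (M + 1) → K} {f : Fin (M + 1) → ℂ → ℂ} (h : EntireCurve y f) :
    N131.SV.EC y f := ⟨h.hol, h.ne, h.mem⟩

theorem Composition.rm {t : ℕ} {B : Fin (t + 1) → MvPolynomial (Fin (M + 1)) ℂ}
    {f : Fin (M + 1) → ℂ → ℂ} {h : Fin (t + 1) → ℂ → ℂ} (hh : Composition B f h) :
    N131.SV.RM B f h := ⟨hh.hol, hh.ne, hh.rel⟩

theorem Basis.pb {ν n : ℕ} {R : Fin (ν + 1) → MvPolynomial (Fin (M + 1)) ℂ}
    {f : Fin (M + 1) → ℂ → ℂ} {g : Fin n → ℂ → ℂ} (h : Basis R f g) :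
    N131.SV.PB R f g := ⟨h.ind, h.span⟩

theorem GenFinite.alg' {ν : ℕ} {y : Fin (M + 1) → K} {e : ℕ}
    {R : Fin (ν + 1) → MvPolynomial (Fin (M + 1)) ℂ} (h : GenFinite y e R) :
    Algebra.IsAlgebraic (IntermediateField.adjoin ℂ
      {z | ∃ i j, aeval y (R j) ≠ 0 ∧ z = aeval y (R i) / aeval y (R j)}) K := by
  have h1 : {z | ∃ i j, aeval y (R j) ≠ 0 ∧ z = aeval y (R i) / aeval y (R j)} =
      {z | ∃ i j, z = aeval y (R i) / aeval y (R j)} := by
    ext z
    simp only [Set.mem_ofPred_eq, h.ne, ne_eq, not_false_eq_true, true_and]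
  rw [h1]
  exact h.alg

/-- the counting function of the zeros of small multiplicity -/
theorem low_zeros {ν : ℕ} {R : Fin (ν + 1) → MvPolynomial (Fin (M + 1)) ℂ}
    {f : Fin (M + 1) → ℂ → ℂ} (hf : ∀ j, Differentiable ℂ (f j)) {z : ℂ}
    (hz : ∀ i, eval (fun j => f j z) (R i) ≠ 0) {r : ℝ} (hr : 1 ≤ r) (μ : ℕ) :
    N₁ (LowZeros R f μ) r = N131.SV.Nc (N131.SV.LZ (∏ i, R i) f μ) r := by
  refine N₁_eq hr ((N131.SR.zeros_finite (h := fun z => eval (fun j => f j z) (∏ i, R i))
    (N131.SR.form_diff hf (∏ i, R i)) ⟨z, ?_⟩ r).subset fun z hz => ⟨hz.1.1, hz.2⟩)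
  rw [map_prod]
  exact Finset.prod_ne_zero_iff.2 fun i _ => hz i

/-- the counting function of the zeros of the Wronskian determinant -/
theorem Basis.wr {ν n : ℕ} {R : Fin (ν + 1) → MvPolynomial (Fin (M + 1)) ℂ}
    {f : Fin (M + 1) → ℂ → ℂ} {g : Fin n → ℂ → ℂ} (h : Basis R f g)
    (hf : ∀ j, Differentiable ℂ (f j)) {r : ℝ} (hr : 1 ≤ r) :
    N₁ {z | W g z = 0} r = N131.SR.Nb (N131.SR.Wr g) r := by
  obtain ⟨a, b, ha, hb, hgd, hW⟩ := N131.SV.wdata
    (G := fun i z => eval (fun j => f j z) (R i)) (fun j => N131.SR.form_diff hf (R j))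
    h.ind h.span
  exact N₁_eq hr (N131.SR.zeros_finite (N131.SR.Wr_diff hgd) hW r)

/-- curves which are not contained in the set of the common zeros of the forms `Q` -/
theorem off_D {y' : Fin (M' + 1) → K'} {P : Fin (M + 1) → MvPolynomial (Fin (M' + 1)) ℂ}
    {F : Fin (M' + 1) → ℂ → ℂ} {f : Fin (M + 1) → ℂ → ℂ} (hf : Composition P F f)
    {s : ℕ} {Q : Fin (s + 1) → MvPolynomial (Fin (M + 1)) ℂ} {q : Fin (s + 1) → ℕ}
    (hQ : ∀ l, (Q l).IsHomogeneous (q l)) {l : Fin (s + 1)} {z : ℂ}
    (hz : eval (fun j => F j z) (aeval P (Q l)) ≠ 0) {r : ℝ} (hr : 1 ≤ r) :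
    N₁ {z | ∀ l, eval (fun j => f j z) (Q l) = 0} r =
      N131.SV.Nc {z | ∀ l, eval (fun j => f j z) (Q l) = 0} r := by
  have h1 : eval (fun j => f j z) (Q l) ≠ 0 := by
    intro h0
    apply hz
    obtain ⟨j, hj⟩ := hf.ne z
    have h2 : (fun i => eval (fun l => F l z) (P i)) =
        fun i => eval (fun l => F l z) (P j) / f j z * f i z := by
      funext i
      rw [div_mul_eq_mul_div, eq_div_iff hj, mul_comm, hf.rel j i z, mul_comm]
    have h3 : eval (fun j => F j z) (aeval P (Q l)) =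
        eval (fun i => eval (fun l => F l z) (P i)) (Q l) := aeval_bind₁ _ _ _
    rw [h3, h2]
    have h4 := Pool.Agent.W602.GT.val_smul (hQ l) (eval (fun l => F l z) (P j) / f j z)
      (fun i => f i z)
    unfold Pool.Agent.W602.GT.val at h4
    have h5 : aeval (fun i => f i z) (Q l) = eval (fun i => f i z) (Q l) := rfl
    rw [h5, h0, mul_zero] at h4
    exact h4
  refine N₁_eq hr ((N131.SR.zeros_finite (h := fun z => eval (fun j => f j z) (Q l))
    (N131.SR.form_diff hf.hol (Q l)) ⟨z, h1⟩ r).subset fun z hz => ⟨hz.1 l, hz.2⟩)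

end proof

/-- Let `y'` be the generic point of the projective variety `Z`, `y` the generic point of the
projective variety `X` of dimension `w > 0`, let `P` define a dominant rational map from `Z` to `X`,
and let `R` define a rational map of `Z` to a projective space which is generically finite onto its
image. Let `D` be the set of the common zeros on `X` of the forms `Q_0, …, Q_s`, not all of which
vanish on `X`, and let `ε > 0`. For an entire curve `F` in `Z` and a basis `g` of the linear span of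
the functions `R_i(F)` let `δ(r)` be the minimum of the numbers `N₁(W(g) = 0, r)` and
`N_{<μ}(R_0(F) ⋯ R_ν(F), r)`.

(1) Let `ω_0, …, ω_t` be `N`-fold pluricanonical forms on `X`, not all zero, with at most logarithmic
poles along `D`, and let `B` be forms on `Z` which define the composition of `P` with the rational
map `(ω_0 : … : ω_t)`. There are a form `A` which does not vanish on `Z` and numbers `C` and `μ` such
that for all entire curves `F` in `Z` which are not contained in `A = 0`, with the images `f = P(F)` and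
`h = B(F) = (ω_0 : … : ω_t)(f)`, there is a set `E` of finite measure with
`T_h(r) ≤ N N₁(f ∈ D, r) + ε T_F(r) + C (δ(r) + log r)` for all `r ≥ 1` outside `E`.

(2) If `(X, D)` is of logarithmic general type, then there are such `A`, `C` and `μ` with
`T_f(r) ≤ ε T_F(r) + C (N₁(f ∈ D, r) + δ(r) + log r)` for all `r ≥ 1` outside `E`. -/
theorem result {M M' w w' p e ν s : ℕ} {K K' : Type} [Field K] [Algebra ℂ K] [Field K']
    [Algebra ℂ K'] {y' : Fin (M' + 1) → K'} (hZ : Variety K' w' y') {y : Fin (M + 1) → K}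
    (hX : Variety K w y) (hw : 0 < w) {φ : K →ₐ[ℂ] K'}
    {P : Fin (M + 1) → MvPolynomial (Fin (M' + 1)) ℂ} (hP : Dominant y' y φ p P)
    {R : Fin (ν + 1) → MvPolynomial (Fin (M' + 1)) ℂ} (hR : GenFinite y' e R)
    {Q : Fin (s + 1) → MvPolynomial (Fin (M + 1)) ℂ} {q : Fin (s + 1) → ℕ}
    (hQ : ∀ l, (Q l).IsHomogeneous (q l)) (hQ0 : ∃ l, aeval y (Q l) ≠ 0) {ε : ℝ} (hε : 0 < ε) :
    (∀ (N t b : ℕ) (ω : Fin (t + 1) → (Fin w → Derivation ℂ K K) → K)
      (B : Fin (t + 1) → MvPolynomial (Fin (M' + 1)) ℂ), LogForms Q q y N ω →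
      (∀ i, (B i).IsHomogeneous b) → (∃ i, aeval y' (B i) ≠ 0) →
      (∀ i j D, φ (ω i D) * aeval y' (B j) = φ (ω j D) * aeval y' (B i)) →
      ∃ A : MvPolynomial (Fin (M' + 1)) ℂ, IsForm A ∧ aeval y' A ≠ 0 ∧ ∃ (C : ℝ) (μ : ℕ),
        ∀ (n : ℕ) (F : Fin (M' + 1) → ℂ → ℂ) (f : Fin (M + 1) → ℂ → ℂ)
          (h : Fin (t + 1) → ℂ → ℂ) (g : Fin n → ℂ → ℂ),
          EntireCurve y' F → (∃ z, eval (fun j => F j z) A ≠ 0) → Composition P F f →
          Composition B F h → Basis R F g →
          ∃ E : Set ℝ, volume E < ⊤ ∧ ∀ r, 1 ≤ r → r ∉ E →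
            T h r ≤ N * N₁ {z | ∀ l, eval (fun j => f j z) (Q l) = 0} r + ε * T F r +
              C * (min (N₁ {z | W g z = 0} r) (N₁ (LowZeros R F μ) r) + Real.log r)) ∧
    (LogGeneralType ℂ K w (CentreIn Q q y) →
      ∃ A : MvPolynomial (Fin (M' + 1)) ℂ, IsForm A ∧ aeval y' A ≠ 0 ∧ ∃ (C : ℝ) (μ : ℕ),
        ∀ (n : ℕ) (F : Fin (M' + 1) → ℂ → ℂ) (f : Fin (M + 1) → ℂ → ℂ) (g : Fin n → ℂ → ℂ),
          EntireCurve y' F → (∃ z, eval (fun j => F j z) A ≠ 0) → Composition P F f →
          Basis R F g →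
          ∃ E : Set ℝ, volume E < ⊤ ∧ ∀ r, 1 ≤ r → r ∉ E →
            T f r ≤ ε * T F r + C * (N₁ {z | ∀ l, eval (fun j => f j z) (Q l) = 0} r +
              min (N₁ {z | W g z = 0} r) (N₁ (LowZeros R F μ) r) + Real.log r)) := by
  have hP' : N131.SV.RMap y' y φ p P := ⟨hP.hom, hP.rel, hP.ne⟩
  obtain ⟨lQ, hlQ⟩ := hQ0
  have hlQ' : aeval y' (aeval P (Q lQ)) ≠ 0 := fun h0 =>
    hlQ ((hP'.form_zero hX.ne (hQ lQ)).2 h0)
  set G : MvPolynomial (Fin (M' + 1)) ℂ := aeval P (Q lQ) * ∏ i, R i with hGdef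
  have hG : IsForm G := by
    refine ⟨_, ((hQ lQ).aeval P hP.hom).mul
      (IsHomogeneous.prod Finset.univ R (fun _ => e) fun i _ => hR.hom i)⟩
  have hG0 : aeval y' G ≠ 0 := by
    rw [hGdef, map_mul, map_prod]
    exact mul_ne_zero hlQ' (Finset.prod_ne_zero_iff.2 fun i _ => hR.ne i)
  have hGz : ∀ {F : Fin (M' + 1) → ℂ → ℂ} {z : ℂ}, eval (fun j => F j z) G ≠ 0 →
      eval (fun j => F j z) (aeval P (Q lQ)) ≠ 0 ∧ ∀ i, eval (fun j => F j z) (R i) ≠ 0 := by
    intro F z hz
    rw [hGdef, map_mul, map_prod] at hz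
    exact ⟨left_ne_zero_of_mul hz, fun i =>
      Finset.prod_ne_zero_iff.1 (right_ne_zero_of_mul hz) i (Finset.mem_univ i)⟩
  constructor
  · intro N t b ω B hω hB hB0 hBω
    obtain ⟨A, ⟨d, hd⟩, hA0, C, μ, hC⟩ := N131.SV.fin1low hZ.gen hZ.ne hR.hom hR.ne hR.alg' hX.gen
      hX.ne hw hX.dim hP' hω.pluri hω.log hQ ⟨lQ, hlQ⟩ hω.reg hB hBω hB0 hω.ne hε
    obtain ⟨d', hd'⟩ := hG
    refine ⟨A * G, ⟨_, hd.mul hd'⟩, by rw [map_mul]; exact mul_ne_zero hA0 hG0, C, μ,
      fun n F f h g hF hA hf hh hg => ?_⟩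
    obtain ⟨z, hz⟩ := hA
    rw [map_mul] at hz
    obtain ⟨E, hE, hb⟩ := hC n F f g h hF.ec hf.rm hg.pb hh.rm ⟨z, left_ne_zero_of_mul hz⟩
    refine ⟨E, hE, fun r hr hrE => ?_⟩
    have h1 := hb r hr hrE
    obtain ⟨h2, h3⟩ := hGz (right_ne_zero_of_mul hz)
    rw [hg.wr hF.hol hr, off_D (y' := y') hf hQ h2 hr, low_zeros hF.hol h3 hr]
    change N131.SR.Tf h r ≤ N * _ + ε * N131.SR.Tf F r + _
    linarith
  · intro hL
    obtain ⟨A, ⟨d, hd⟩, hA0, C, μ, hC⟩ := N131.SV.fin2low hZ.gen hZ.ne hR.hom hR.ne hR.alg' hX.gen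
      hX.ne hw hP' hQ ⟨lQ, hlQ⟩ hL hε
    obtain ⟨d', hd'⟩ := hG
    refine ⟨A * G, ⟨_, hd.mul hd'⟩, by rw [map_mul]; exact mul_ne_zero hA0 hG0, C, μ,
      fun n F f g hF hA hf hg => ?_⟩
    obtain ⟨z, hz⟩ := hA
    rw [map_mul] at hz
    obtain ⟨E, hE, hb⟩ := hC n F f g hF.ec hf.rm hg.pb ⟨z, left_ne_zero_of_mul hz⟩
    refine ⟨E, hE, fun r hr hrE => ?_⟩
    have h1 := hb r hr hrE
    obtain ⟨h2, h3⟩ := hGz (right_ne_zero_of_mul hz)
    rw [hg.wr hF.hol hr, off_D (y' := y') hf hQ h2 hr, low_zeros hF.hol h3 hr]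
    change N131.SR.Tf f r ≤ ε * N131.SR.Tf F r + _
    linarith

end Pool.Agent.Results.MP_64ff02_ag.MasterInequality
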