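import Pool.Agent.N154.TC.VGeo

/-!
Punctured discs and entire curves in quasi-projective varieties with a holomorphic map to an abelian
variety, whose 2-forms are positive in the directions of the abelian variety, outside an arbitrary
closed subset (for example, in all surfaces of log general type with a map to an abelian variety):
the big Picard theorem holds modulo finitely many elliptic curves for the punctured discs in a
closed set `V`, unless there are entire curves in `V` which lie in the fibres, in the exceptional
set or in the strata of the boundary.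
-/

set_option autoImplicit false

open FF LinearAlgebra.Projectivization Pool.Agent.W602.GT Pool.Agent.N154.TB Pool.Agent.N154.TC
open Pool.Agent.N154.TT (RiemannForm HolToTorus)
open Pool.Agent.N154.GG (PDisc Extends projDist)

/-- Let `Z = {F = 0}` be an irreducible projective variety of dimension `w ≥ 2` with generic point
`y`, and `D a = {P a = 0}` closed subsets of `Z`, each of which is locally, as a set, given by one
equation. Let `X = Z - ∪ D a`, which may be singular. Let `S = {G = 0}` be any closed subset which
contains the points where `X` is not a manifold of dimension `d`, and let `α : Z → A = ℂᵐ / Λ` be a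
holomorphic map to an abelian variety (`H` is a Riemann form). Assume that the 2-forms of `X` are
positive outside `S` in the directions of `A` (see `TwoForms`; no condition on the 2-forms at the
`D a`; for example, `Z` may be any smooth surface, `∪ D a` a divisor with normal crossings `D` with
`K + D` big, and `S` the base locus of the sections of a multiple of `K + D` which vanish on a
hyperplane section).

(1) Let `V` be any subset of `Z` which is closed for the classical topology (`projDist` is a
distance of projective space). There is no hypothesis on the fibres of `α`, on `S` and on the `D a`.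
Then either `V` contains the image of a nonconstant holomorphic map `h` from `ℂ`, such that `h` has
values in `X`, has bounded derivative and lies in a fibre of `α` or in `S`, or such that `h` has
values in a stratum of the union of the `D a`; or there is a finite set `T` of nonconstant
holomorphic maps from elliptic curves to the intersection of `X` and `V` such that every holomorphic
map `f` from the punctured unit disc to `X` with image in `V` extends to a holomorphic map from the
unit disc to `Z`, or is of the form `f (exp z) = g (s z)` with `g` in `T` and `s` holomorphic for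
`Re z < 0`, and every nonconstant holomorphic map `f : ℂ → X` with image in `V` is `g ∘ s` with `g`
in `T` and `s` entire; and there is a form `Q` which is not zero on `X` and vanishes on the images
of the maps in `T` (so on the images of those `f`, from the punctured disc or the plane, which do
not extend or are not constant). For example, `V` is the closure of the image of one map `f` from
the punctured disc to `X`.

(2) Assume that the strata of the union of the `D a`, `S` and the fibres of `α` in `X` are Brody
hyperbolic. Then the second case of (1) holds for `V = Z`: there is a finite set `T` of nonconstant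
holomorphic maps from elliptic curves to `X` such that every holomorphic map `f` from the punctured
unit disc to `X` extends to the disc, or is of the form `f (exp z) = g (s z)` with `g` in `T`, and
every nonconstant holomorphic map `f : ℂ → X` is `g ∘ s` with `g` in `T` and `s` entire. There is a
form `Q` which is not zero on `X` and vanishes on the images of the maps in `T`, so `X` is
pseudo-Picard hyperbolic: every holomorphic map from the punctured disc to `X` whose image is not
contained in `{Q = 0}` extends to the disc. -/
theorem Pool.Agent.Results.MP_64ff02_ag.OpenPicardOverAbelian.result {n d m w : ℕ}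
    {ι ι' ι'' A : Type} (F : ι → MvPolynomial (Fin (n + 1)) ℂ) (hF : ∀ i, IsForm (F i)) {K : Type}
    [Field K] [Algebra ℂ K] (y : Fin (n + 1) → K) (hw : 2 ≤ w) (hy : SubVar F K w y)
    (hirr : Cone F ⊆ VarPts ℂ y)
    (P : A → ι'' → MvPolynomial (Fin (n + 1)) ℂ) (hP : ∀ a i, IsForm (P a i))
    (hloc : ∀ a, LocOne F (P a))
    (G : ι' → MvPolynomial (Fin (n + 1)) ℂ) (hG : ∀ j, IsForm (G j))
    (Λ : Submodule ℤ (Fin m → ℂ)) [DiscreteTopology Λ]
    [IsZLattice ℝ Λ] (H : (Fin m → ℂ) → (Fin m → ℂ) → ℂ) (hH : RiemannForm Λ H)
    (α : (Fin (n + 1) → ℂ) → (Fin m → ℂ) ⧸ Λ) (hα : HolToTorus (Cone F) Λ α) {κ : Type}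
    (k : κ → ℕ) (η : κ → (Fin (n + 1) → ℂ) → (Fin (n + 1) → ℂ) → (Fin (n + 1) → ℂ) → ℂ)
    (hη : TwoForms (Compl F P) (Zeros G) d α k η) :
    (∀ V : Set (ℙ ℂ (Fin (n + 1) → ℂ)), (∀ p ∈ V, p.rep ∈ Cone F) →
      (∀ p, (∀ ε > 0, ∃ q ∈ V, projDist p q < ε) → p ∈ V) →
      (∃ h : ℂ → ℙ ℂ (Fin (n + 1) → ℂ), ¬ IsConst h ∧ (∀ z, h z ∈ V) ∧
        ((CurveIn (Compl F P) h ∧ (∀ z w, projDist (h z) (h w) ≤ 2 * ‖z - w‖) ∧
          ((∀ z w, α (h z).rep = α (h w).rep) ∨ ∀ z, (h z).rep ∈ Zeros G)) ∨
          ∃ I : Set A, I.Nonempty ∧ CurveIn (Stratum F P I) h)) ∨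
      ∃ T : Set (ℂ → ℙ ℂ (Fin (n + 1) → ℂ)), T.Finite ∧
        (∀ g ∈ T, CurveIn (Compl F P) g ∧ (∀ z, g z ∈ V) ∧ Elliptic g ∧ OverLine α g) ∧
        (∀ f, PunctX (Compl F P) f → (∀ z ∈ PDisc, f z ∈ V) → Extends F f ∨ FactorsExp T f) ∧
        (∀ f, CurveIn (Compl F P) f → (∀ z, f z ∈ V) → IsConst f ∨ Factors T f) ∧
        ∃ Q : MvPolynomial (Fin (n + 1)) ℂ, IsForm Q ∧ val y Q ≠ 0 ∧
          ∀ g ∈ T, ∀ z, val (g z).rep Q = 0) ∧
    ((∀ I : Set A, I.Nonempty → BrodyHyp (Stratum F P I)) → BrodyHyp (Compl F P ∩ Zeros G) →
      HypFibres (Compl F P) α → ∃ T : Set (ℂ → ℙ ℂ (Fin (n + 1) → ℂ)), T.Finite ∧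
        (∀ g ∈ T, CurveIn (Compl F P) g ∧ Elliptic g ∧ OverLine α g) ∧
        (∀ f, PunctX (Compl F P) f → Extends F f ∨ FactorsExp T f) ∧
        (∀ f, CurveIn (Compl F P) f → IsConst f ∨ Factors T f) ∧
        ∃ Q : MvPolynomial (Fin (n + 1)) ℂ, IsForm Q ∧ val y Q ≠ 0 ∧
          (∀ g ∈ T, ∀ z, val (g z).rep Q = 0) ∧
          ∀ f, PunctX (Compl F P) f → Extends F f ∨ ∀ z ∈ PDisc, val (f z).rep Q = 0) := by
  refine ⟨fun V hV1 hV2 => ?_, fun hD hS hfib => ?_⟩
  · rcases open_closed_geo hF hP hloc hG hη hα hH hV1 hV2 with h | ⟨T, h1, h2, h3, h4, h5⟩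
    · exact Or.inl h
    · exact Or.inr ⟨T, h1, h2, h3, h4, h5 K w y hw hy hirr⟩
  · obtain ⟨T, h1, h2, h3, h4, -, -, h7⟩ := open_geo hF hP hD hloc hG hS hη hα hfib (Or.inl hH)
    obtain ⟨Q, hQ1, hQ2, hQ3⟩ := h7 K w y hw hy hirr
    refine ⟨T, h1, h2, h4, h3, Q, hQ1, hQ2, hQ3, fun f hf => ?_⟩
    rcases h4 f hf with h | ⟨g, hg, s, hs, hfs⟩
    · exact Or.inl h
    · refine Or.inr fun z hz => ?_
      have hz0 : z ≠ 0 := hz.2
      have h5 := hfs (Complex.log z) (by
        rw [Complex.log_re]
        exact Real.log_neg (norm_pos_iff.2 hz0) (by simpa using hz.1))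
      rw [Complex.exp_log hz0] at h5
      rw [h5]
      exact hQ3 g hg _
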