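import Pool.Agent.N155.Q.Frm

/-!
Projective manifolds with positive 2-forms and with symmetric differentials without common zeros:
they are pseudo-Picard hyperbolic and pseudo-Brody hyperbolic modulo finitely many elliptic curves,
with an explicit lower bound of the Kobayashi metric.
-/

set_option autoImplicit false

open Filter Topology Metric Pool.Agent.W602.GT Pool.Agent.N155.BB Pool.Agent.N155.GD
  Pool.Agent.N155.QD LinearAlgebra.Projectivization

/-- Let `X = {F = 0}` be a projective manifold of dimension `d`, and `Z = {G = 0}` a projective set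
such that the holomorphic maps from the complex plane to `X ∩ Z` are constant or factor through
rational curves (for example `Z` empty). Suppose that the 2-forms on `X` are positive outside `Z`
(for example `Λ² Ω` ample and `Z` empty), and that finitely many symmetric differentials on `X` of
the same degree `k > 0` have no common zeros (for example, `Sym ^ k Ω` is generated by global
sections).

Then there are finitely many doubly periodic holomorphic maps `g` from the complex plane to `X` such
that

* every holomorphic map `f` from the complex plane to `X` with bounded derivative is constant or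
  `f z = g (a z + b)` for some `g` in the list and some numbers `a ≠ 0`, `b`;
* if `d ≥ 2`, the set of the common zeros of the forms which vanish on the images of all `g` in the
  list has empty interior in `X`;
* for every form `P` which vanishes on the images of all `g` in the list:
  `P` vanishes on the image of every nonconstant holomorphic map from the complex plane to `X`
  (`X` is pseudo-Brody hyperbolic);
  there are `A > 0` and `C > 0` such that the size `|P|` of `P` divided by `A` is at most one on
  projective space and for every holomorphic map `f` from the disc with center `a` and radius `r` to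
  `X`, with `P (f a) ≠ 0`, the length `s` of the derivative of `f` at `a`, with respect to the
  Fubini-Study metric, satisfies `(r s) ^ 2 ≤ C (1 + log (A / |P (f a)|))`; thus the Kobayashi
  metric of `X` at the points where `P ≠ 0` is at least `|v| / √(C (1 + log (A / |P|)))`;
  and for every holomorphic map `f` from the punctured unit disc to `X`, `P` vanishes on the image
  of `f` or `f` extends to a holomorphic map from the unit disc to `X` (`X` is pseudo-Picard
  hyperbolic). -/
theorem Pool.Agent.Results.MP_64ff02_ag.PicardModuloElliptic.result {n : ℕ} {ι ι' : Type}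
    (F : ι → MvPolynomial (Fin (n + 1)) ℂ) (d : ℕ) (hX : ProjManifold F d)
    (G : ι' → MvPolynomial (Fin (n + 1)) ℂ) (hG : ∀ i, IsForm (G i))
    (hZ : RationalCurvesOnly F G) {κ : Type}
    (η : κ → (Fin (n + 1) → ℂ) → (Fin (n + 1) → ℂ) → (Fin (n + 1) → ℂ) → ℂ)
    (hη : PositiveTwoForms (Cone F) (Cone G) d η) (k : ℕ) {τ : Type} [Fintype τ] [Nonempty τ]
    (σ : τ → (Fin (n + 1) → ℂ) → (Fin (n + 1) → ℂ) → ℂ) (hk : 0 < k)
    (hσ : ∀ a, SymDiff (Cone F) d k (σ a)) (hn : NoCommonZero (Cone F) d σ) :
    ∃ S : Finset (ℂ → ℙ ℂ (Fin (n + 1) → ℂ)), (∀ g ∈ S, HolIn F g ∧ DoublyPeriodic g) ∧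
      (∀ (f : ℂ → ℙ ℂ (Fin (n + 1) → ℂ)) (B : ℝ), HolIn F f → DerBetween 0 B f →
        (∀ z w, f z = f w) ∨ ∃ g ∈ S, ∃ a b : ℂ, a ≠ 0 ∧ ∀ z, f z = g (a * z + b)) ∧
      (2 ≤ d → ∀ x ∈ Cone F, ∃ (P : MvPolynomial (Fin (n + 1)) ℂ) (e : ℕ), P.IsHomogeneous e ∧
        (∀ g ∈ S, ∀ z, MvPolynomial.eval (g z).rep P = 0) ∧
        ∃ᶠ u in 𝓝 x, u ∈ Cone F ∧ MvPolynomial.eval u P ≠ 0) ∧
      ∀ (P : MvPolynomial (Fin (n + 1)) ℂ) (e : ℕ), P.IsHomogeneous e →
        (∀ g ∈ S, ∀ z, MvPolynomial.eval (g z).rep P = 0) →
        (∀ f : ℂ → ℙ ℂ (Fin (n + 1) → ℂ), HolIn F f → (∃ z w, f z ≠ f w) →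
          ∀ z, MvPolynomial.eval (f z).rep P = 0) ∧
        (∃ A C : ℝ, 0 < A ∧ 0 < C ∧ (∀ x, absAt P e A x ≤ 1) ∧
          ∀ (a : ℂ) (r s : ℝ) (f : ℂ → ℙ ℂ (Fin (n + 1) → ℂ)), HolTo F (ball a r) f → 0 < r →
            HasSpeed f a s → MvPolynomial.eval (f a).rep P ≠ 0 →
            (r * s) ^ 2 ≤ C * (1 + Real.log (1 / absAt P e A (f a)))) ∧
        ∀ f : ℂ → ℙ ℂ (Fin (n + 1) → ℂ), HolTo F (ball 0 1 \ {0}) f →
          (∀ z ∈ ball (0 : ℂ) 1 \ {0}, MvPolynomial.eval (f z).rep P = 0) ∨
          ∃ h : ℂ → ℙ ℂ (Fin (n + 1) → ℂ), HolTo F (ball 0 1) h ∧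
            ∀ z ∈ ball (0 : ℂ) 1 \ {0}, h z = f z := by
  obtain ⟨S, h1, h2, h3⟩ := sym_picard hX hG hη (noBC_of hZ) hσ hk hn
  exact ⟨S, h1, h2, fun hd x hx => exists_form hX hd S h1 hx, h3⟩
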